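import Mathlib
import Pool.Agent.H286R2.UC.Defs
import Pool.Agent.H286R2.UC.Stubs
import Pool.Agent.H375R2.UC.T03a

set_option autoImplicit false

/-! The one-variable inequality U8b for the union-closed constant 0.385. -/

namespace Pool.Agent.H286R2.UC

open Real Finset Pool.Agent.H117R2 Pool.Agent.H117R2.UC

namespace U8baux

open Pool.Agent.H375R2.UC (P3 log_le_node)

theorem sqrt_low {y s : ℝ} (hy : 0 ≤ y) (hs : 0 < s) :
    y * (3 * s ^ 2 - y) / (2 * s ^ 3) ≤ √y := by
  set r := √y with hr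
  have hr0 : 0 ≤ r := Real.sqrt_nonneg y
  have hy2 : y = r ^ 2 := (Real.sq_sqrt hy).symm
  rw [div_le_iff₀ (by positivity), hy2]
  have h : 0 ≤ r * ((r - s) ^ 2 * (r + 2 * s)) := by positivity
  nlinarith [h]

theorem hb_nonneg {x : ℝ} (h0 : 0 ≤ x) (h1 : x ≤ 1) : 0 ≤ hb x := by
  unfold hb
  exact add_nonneg (negMulLog_nonneg h0 h1) (negMulLog_nonneg (by linarith) (by linarith))

theorem NN_diag {x : ℝ} (h0 : 0 < x) (h1 : x < 1) :
    NN x x = (1 - x) * ((1 - x) * log (1 - x) + (1 + x) * log (1 + x)) := by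
  have e2 : log (1 - x * x) = log (1 - x) + log (1 + x) := by
    rw [← Real.log_mul (by linarith) (by linarith)]
    congr 1
    ring
  unfold NN MM negMulLog
  rw [e2]
  ring

theorem core {x H K s : ℝ} (h0 : 0 < x) (h1 : x < 1) (hH0 : 0 ≤ H) (hH : H ≤ hb x) (hs : 0 < s)
    (hK : (1 - x) * log (1 - x) + (1 + x) * log (1 + x) ≤ K)
    (hG : (1 - x) * K ≤ 284089 / 1000000 * (x * H) +
      1066 / 10000 * (H * (x * H * (3 * s ^ 2 - x * H) / (2 * s ^ 3))) + 1 / 100 * H ^ 2) :
    nu x ≤ 533 / 1000 * √(x * hb x) + 1 / 10 * hb x := by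
  have hb0 : 0 ≤ hb x := hb_nonneg h0.le h1.le
  unfold nu
  rw [Real.sqrt_le_iff]
  refine ⟨by positivity, ?_⟩
  have e : (533 / 1000 * √(x * hb x) + 1 / 10 * hb x) ^ 2 =
      284089 / 1000000 * (x * hb x) + 1066 / 10000 * (hb x * √(x * hb x)) + 1 / 100 * hb x ^ 2 := by
    have := Real.sq_sqrt (show 0 ≤ x * hb x by positivity)
    nlinarith [this]
  rw [e, NN_diag h0 h1]
  have a1 : (1 - x) * ((1 - x) * log (1 - x) + (1 + x) * log (1 + x)) ≤ (1 - x) * K :=
    mul_le_mul_of_nonneg_left hK (by linarith)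
  have a2 : x * H ≤ x * hb x := mul_le_mul_of_nonneg_left hH h0.le
  have a3 : √(x * H) ≤ √(x * hb x) := Real.sqrt_le_sqrt a2
  have a4 := sqrt_low (show 0 ≤ x * H by positivity) hs
  have a5 : H * (x * H * (3 * s ^ 2 - x * H) / (2 * s ^ 3)) ≤ hb x * √(x * hb x) :=
    (mul_le_mul_of_nonneg_left (a4.trans a3) hH0).trans
      (mul_le_mul_of_nonneg_right hH (Real.sqrt_nonneg _))
  have a6 : H ^ 2 ≤ hb x ^ 2 := pow_le_pow_left₀ hH0 hH 2
  linarith

/-- polynomial lower bound of the entropy -/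
noncomputable def HL (l1 t1 l2 t2 x : ℝ) : ℝ :=
  -(x * (l1 + P3 (x / t1 - 1))) - (1 - x) * (l2 + P3 ((1 - x) / t2 - 1))

theorem HL_le {l1 t1 l2 t2 x : ℝ} (h0 : 0 < x) (h1 : x < 1) (ht1 : 0 < t1) (ht2 : 0 < t2)
    (hl1 : log t1 ≤ l1) (hl2 : log t2 ≤ l2) : HL l1 t1 l2 t2 x ≤ hb x := by
  have b1 := mul_le_mul_of_nonneg_left (log_le_node h0 ht1 hl1) h0.le
  have b2 := mul_le_mul_of_nonneg_left (log_le_node (t := 1 - x) (by linarith) ht2 hl2)
    (show 0 ≤ 1 - x by linarith)
  unfold HL hb negMulLog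
  linarith

/-- polynomial upper bound of the kernel -/
noncomputable def KU (l2 t2 l3 t3 x : ℝ) : ℝ :=
  (1 - x) * (l2 + P3 ((1 - x) / t2 - 1)) + (1 + x) * (l3 + P3 ((1 + x) / t3 - 1))

theorem le_KU {l2 t2 l3 t3 x : ℝ} (h0 : 0 < x) (h1 : x < 1) (ht2 : 0 < t2) (ht3 : 0 < t3)
    (hl2 : log t2 ≤ l2) (hl3 : log t3 ≤ l3) :
    (1 - x) * log (1 - x) + (1 + x) * log (1 + x) ≤ KU l2 t2 l3 t3 x := by
  have b2 := mul_le_mul_of_nonneg_left (log_le_node (t := 1 - x) (by linarith) ht2 hl2)
    (show 0 ≤ 1 - x by linarith)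
  have b3 := mul_le_mul_of_nonneg_left (log_le_node (t := 1 + x) (by linarith) ht3 hl3)
    (show 0 ≤ 1 + x by linarith)
  unfold KU
  linarith

theorem seg1 {x : ℝ} (h0 : (3/4) ≤ x) (h1 : x ≤ (9/10)) :
    nu x ≤ 533 / 1000 * √(x * hb x) + 1 / 10 * hb x := by
  have hl2 := Real.log_two_gt_d9
  have hl2' := Real.log_two_lt_d9
  have hl3 := Real.log_three_gt_d9
  have hl3' := Real.log_three_lt_d9
  have hl5 := Real.log_five_gt_d9
  have hl5' := Real.log_five_lt_d9
  have e1 : log (4/5) ≤ (-2231/10000) := by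
    have h : log ((4/5) : ℝ) = (2) * log 2 + (-1) * log 5 := by
      rw [show ((4/5) : ℝ) = (2 ^ 2) / (5 ^ 1) by norm_num]
      rw [Real.log_div (by norm_num) (by norm_num)]
      simp only [Real.log_pow, Real.log_one]
      push_cast
      ring
    rw [h]; linarith
  have e2 : log (1/5) ≤ (-8047/5000) := by
    have h : log ((1/5) : ℝ) = (-1) * log 5 := by
      rw [show ((1/5) : ℝ) = (1) / (5 ^ 1) by norm_num]
      rw [Real.log_div (by norm_num) (by norm_num)]
      simp only [Real.log_pow, Real.log_one]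
      push_cast
      ring
    rw [h]; linarith
  have e3 : log (9/5) ≤ (2939/5000) := by
    have h : log ((9/5) : ℝ) = (2) * log 3 + (-1) * log 5 := by
      rw [show ((9/5) : ℝ) = (3 ^ 2) / (5 ^ 1) by norm_num]
      rw [Real.log_div (by norm_num) (by norm_num)]
      simp only [Real.log_pow, Real.log_one]
      push_cast
      ring
    rw [h]; linarith
  have hs : 0 ≤ x - (3/4) := by linarith
  have ht : 0 ≤ (9/10) - x := by linarith
  have kH : HL (-2231/10000) (4/5) (-8047/5000) (1/5) x =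
      (17267291/15552) * ((x - (3/4)) ^ 0 * ((9/10) - x) ^ 4) +
      (20026123/4860) * ((x - (3/4)) ^ 1 * ((9/10) - x) ^ 3) +
      (18011101/3240) * ((x - (3/4)) ^ 2 * ((9/10) - x) ^ 2) +
      (3921676/1215) * ((x - (3/4)) ^ 3 * ((9/10) - x) ^ 1) +
      (3094483/4860) * ((x - (3/4)) ^ 4 * ((9/10) - x) ^ 0) := by
    unfold HL P3; ring
  have hH0 : 0 ≤ HL (-2231/10000) (4/5) (-8047/5000) (1/5) x := by rw [kH]; positivity
  refine core (s := (3/5)) (by linarith) (by linarith) hH0 (HL_le (by linarith) (by linarith) (by norm_num) (by norm_num) e1 e2)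
    (by norm_num) (le_KU (by linarith) (by linarith) (by norm_num) (by norm_num) e2 e3) ?_
  rw [← sub_nonneg]
  have kG : 284089 / 1000000 * (x * HL (-2231/10000) (4/5) (-8047/5000) (1/5) x) +
      1066 / 10000 * (HL (-2231/10000) (4/5) (-8047/5000) (1/5) x * (x * HL (-2231/10000) (4/5) (-8047/5000) (1/5) x * (3 * (3/5) ^ 2 - x * HL (-2231/10000) (4/5) (-8047/5000) (1/5) x) / (2 * (3/5) ^ 3))) + 1 / 100 * HL (-2231/10000) (4/5) (-8047/5000) (1/5) x ^ 2 -
      (1 - x) * KU (-8047/5000) (1/5) (2939/5000) (9/5) x =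
      (47686748581013961833054695/43873901280755712) * ((x - (3/4)) ^ 0 * ((9/10) - x) ^ 14) +
      (158636206097208495332664821/10968475320188928) * ((x - (3/4)) ^ 1 * ((9/10) - x) ^ 13) +
      (4845252126127922167986546101/54842376600944640) * ((x - (3/4)) ^ 2 * ((9/10) - x) ^ 12) +
      (456276604468588238216780405/1371059415023616) * ((x - (3/4)) ^ 3 * ((9/10) - x) ^ 11) +
      (299361818780596186370321613499/342764853755904000) * ((x - (3/4)) ^ 4 * ((9/10) - x) ^ 10) +
      (729568237631682252495602228227/428456067194880000) * ((x - (3/4)) ^ 5 * ((9/10) - x) ^ 9) +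
      (364331896144733542106165001731/142818689064960000) * ((x - (3/4)) ^ 6 * ((9/10) - x) ^ 8) +
      (26561026771164940051936894489/8926168066560000) * ((x - (3/4)) ^ 7 * ((9/10) - x) ^ 7) +
      (96273067327925406783232016639/35704672266240000) * ((x - (3/4)) ^ 8 * ((9/10) - x) ^ 6) +
      (50091776597168834401174876507/26778504199680000) * ((x - (3/4)) ^ 9 * ((9/10) - x) ^ 5) +
      (25916820134357181647510669147/26778504199680000) * ((x - (3/4)) ^ 10 * ((9/10) - x) ^ 4) +
      (1199731877139895035568489781/3347313024960000) * ((x - (3/4)) ^ 11 * ((9/10) - x) ^ 3) +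
      (595193002259978077101932773/6694626049920000) * ((x - (3/4)) ^ 12 * ((9/10) - x) ^ 2) +
      (21897759432507861396100253/1673656512480000) * ((x - (3/4)) ^ 13 * ((9/10) - x) ^ 1) +
      (1426411411100980625948347/1673656512480000) * ((x - (3/4)) ^ 14 * ((9/10) - x) ^ 0) := by
    unfold HL KU P3; ring
  rw [kG]; positivity

theorem seg2 {x : ℝ} (h0 : (9/10) ≤ x) (h1 : x ≤ (99/100)) :
    nu x ≤ 533 / 1000 * √(x * hb x) + 1 / 10 * hb x := by
  have hl2 := Real.log_two_gt_d9
  have hl2' := Real.log_two_lt_d9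
  have hl3 := Real.log_three_gt_d9
  have hl3' := Real.log_three_lt_d9
  have hl5 := Real.log_five_gt_d9
  have hl5' := Real.log_five_lt_d9
  have e1 : log (24/25) ≤ (-51/1250) := by
    have h : log ((24/25) : ℝ) = (3) * log 2 + (1) * log 3 + (-2) * log 5 := by
      rw [show ((24/25) : ℝ) = (2 ^ 3 * 3 ^ 1) / (5 ^ 2) by norm_num]
      rw [Real.log_div (by norm_num) (by norm_num)]
      rw [Real.log_mul (by norm_num) (by norm_num)]
      simp only [Real.log_pow, Real.log_one]
      push_cast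
      ring
    rw [h]; linarith
  have e2 : log (3/50) ≤ (-14067/5000) := by
    have h : log ((3/50) : ℝ) = (-1) * log 2 + (1) * log 3 + (-2) * log 5 := by
      rw [show ((3/50) : ℝ) = (3 ^ 1) / (2 ^ 1 * 5 ^ 2) by norm_num]
      rw [Real.log_div (by norm_num) (by norm_num)]
      rw [Real.log_mul (by norm_num) (by norm_num)]
      simp only [Real.log_pow, Real.log_one]
      push_cast
      ring
    rw [h]; linarith
  have e3 : log (48/25) ≤ (1631/2500) := by
    have h : log ((48/25) : ℝ) = (4) * log 2 + (1) * log 3 + (-2) * log 5 := by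
      rw [show ((48/25) : ℝ) = (2 ^ 4 * 3 ^ 1) / (5 ^ 2) by norm_num]
      rw [Real.log_div (by norm_num) (by norm_num)]
      rw [Real.log_mul (by norm_num) (by norm_num)]
      simp only [Real.log_pow, Real.log_one]
      push_cast
      ring
    rw [h]; linarith
  have hs : 0 ≤ x - (9/10) := by linarith
  have ht : 0 ≤ (99/100) - x := by linarith
  have kH : HL (-51/1250) (24/25) (-14067/5000) (3/50) x =
      (83415761375/17006112) * ((x - (9/10)) ^ 0 * ((99/100) - x) ^ 4) +
      (145039494475/8503056) * ((x - (9/10)) ^ 1 * ((99/100) - x) ^ 3) +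
      (221084979275/11337408) * ((x - (9/10)) ^ 2 * ((99/100) - x) ^ 2) +
      (329280548575/34012224) * ((x - (9/10)) ^ 3 * ((99/100) - x) ^ 1) +
      (214810011575/272097792) * ((x - (9/10)) ^ 4 * ((99/100) - x) ^ 0) := by
    unfold HL P3; ring
  have hH0 : 0 ≤ HL (-51/1250) (24/25) (-14067/5000) (3/50) x := by rw [kH]; positivity
  refine core (s := (1/2)) (by linarith) (by linarith) hH0 (HL_le (by linarith) (by linarith) (by norm_num) (by norm_num) e1 e2)
    (by norm_num) (le_KU (by linarith) (by linarith) (by norm_num) (by norm_num) e2 e3) ?_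
  rw [← sub_nonneg]
  have kG : 284089 / 1000000 * (x * HL (-51/1250) (24/25) (-14067/5000) (3/50) x) +
      1066 / 10000 * (HL (-51/1250) (24/25) (-14067/5000) (3/50) x * (x * HL (-51/1250) (24/25) (-14067/5000) (3/50) x * (3 * (1/2) ^ 2 - x * HL (-51/1250) (24/25) (-14067/5000) (3/50) x) / (2 * (1/2) ^ 3))) + 1 / 100 * HL (-51/1250) (24/25) (-14067/5000) (3/50) x ^ 2 -
      (1 - x) * KU (-14067/5000) (3/50) (1631/2500) (48/25) x =
      (842529998902905058239983142109375/819716834902011199488) * ((x - (9/10)) ^ 0 * ((99/100) - x) ^ 14) +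
      (54222231576032988096252361847265625/2459150504706033598464) * ((x - (9/10)) ^ 1 * ((99/100) - x) ^ 13) +
      (564076170797575173014498938256078125/3278867339608044797952) * ((x - (9/10)) ^ 2 * ((99/100) - x) ^ 12) +
      (1230653678819413908622209393823759375/1639433669804022398976) * ((x - (9/10)) ^ 3 * ((99/100) - x) ^ 11) +
      (84912903264848258126767406650150703125/39346408075296537575424) * ((x - (9/10)) ^ 4 * ((99/100) - x) ^ 10) +
      (19403346383163225097821840554564492975/4371823119477393063936) * ((x - (9/10)) ^ 5 * ((99/100) - x) ^ 9) +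
      (39760414751668259575180626663860806325/5829097492636524085248) * ((x - (9/10)) ^ 6 * ((99/100) - x) ^ 8) +
      (104756414568303489215967927537139944425/13115469358432179191808) * ((x - (9/10)) ^ 7 * ((99/100) - x) ^ 7) +
      (499045575663262277534809489703025342775/69949169911638289022976) * ((x - (9/10)) ^ 8 * ((99/100) - x) ^ 6) +
      (1005660819642526576828609584316668840925/209847509734914867068928) * ((x - (9/10)) ^ 9 * ((99/100) - x) ^ 5) +
      (5917421148245499450226606152806027231725/2518170116818978404827136) * ((x - (9/10)) ^ 10 * ((99/100) - x) ^ 4) +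
      (335757348347735347499053366886270209775/419695019469829734137856) * ((x - (9/10)) ^ 11 * ((99/100) - x) ^ 3) +
      (583253342739123725799012559198662475925/3357560155758637873102848) * ((x - (9/10)) ^ 12 * ((99/100) - x) ^ 2) +
      (206810435029838069605731538907407945225/10072680467275913619308544) * ((x - (9/10)) ^ 13 * ((99/100) - x) ^ 1) +
      (4127290787043945677287297197760384525/4476746874344850497470464) * ((x - (9/10)) ^ 14 * ((99/100) - x) ^ 0) := by
    unfold HL KU P3; ring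
  rw [kG]; positivity

theorem tail {x : ℝ} (h0 : 99 / 100 ≤ x) (h1 : x ≤ 1) :
    nu x ≤ 533 / 1000 * √(x * hb x) + 1 / 10 * hb x := by
  have hb0 : 0 ≤ hb x := hb_nonneg (by linarith) h1
  rcases h1.eq_or_lt with rfl | h1
  · have : nu 1 = 0 := by
      unfold nu NN MM negMulLog
      norm_num
    rw [this]
    positivity
  have hx0 : 0 < x := by linarith
  unfold nu
  rw [Real.sqrt_le_iff]
  refine ⟨by positivity, ?_⟩
  have e : (533 / 1000 * √(x * hb x) + 1 / 10 * hb x) ^ 2 =
      284089 / 1000000 * (x * hb x) + 1066 / 10000 * (hb x * √(x * hb x)) + 1 / 100 * hb x ^ 2 := by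
    have := Real.sq_sqrt (show 0 ≤ x * hb x by positivity)
    nlinarith [this]
  rw [e, NN_diag hx0 h1]
  have hl2 := Real.log_two_gt_d9
  have hl2' := Real.log_two_lt_d9
  have hl5 := Real.log_five_gt_d9
  -- bounds of logarithms
  have k1 : log (1 - x) ≤ -(46 / 10) := by
    have a : log (1 - x) ≤ log (1 / 100) := Real.log_le_log (by linarith) (by linarith)
    have b : log (1 / 100 : ℝ) = -(2 * log 2 + 2 * log 5) := by
      rw [show (1 / 100 : ℝ) = 1 / (2 ^ 2 * 5 ^ 2) by norm_num, Real.log_div (by norm_num) (by norm_num),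
        Real.log_mul (by norm_num) (by norm_num), Real.log_one, Real.log_pow, Real.log_pow]
      push_cast
      ring
    linarith
  have k2 : log (1 + x) ≤ log 2 := Real.log_le_log (by linarith) (by linarith)
  have k3 : log x ≤ x - 1 := Real.log_le_sub_one_of_pos hx0
  have h1x : 0 < 1 - x := by linarith
  have hbl : (1 - x) * (46 / 10 + x) ≤ hb x := by
    unfold hb negMulLog
    have a1 := mul_le_mul_of_nonneg_left k1 h1x.le
    have a2 := mul_le_mul_of_nonneg_left k3 hx0.le
    linarith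
  have hK : (1 - x) * log (1 - x) + (1 + x) * log (1 + x) ≤ 2 * log 2 := by
    have a1 := mul_le_mul_of_nonneg_left k1 h1x.le
    have a2 := mul_le_mul_of_nonneg_left k2 (show 0 ≤ 1 + x by linarith)
    have a3 : (1 + x) * log 2 ≤ 2 * log 2 := mul_le_mul_of_nonneg_right (by linarith) (by linarith)
    linarith
  have g1 : (1 - x) * ((1 - x) * log (1 - x) + (1 + x) * log (1 + x)) ≤ (1 - x) * (2 * log 2) :=
    mul_le_mul_of_nonneg_left hK h1x.le
  have g2 : (1 - x) * (2 * log 2) ≤ (1 - x) * (14 / 10) :=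
    mul_le_mul_of_nonneg_left (by linarith) h1x.le
  have g3 : x * ((1 - x) * (46 / 10 + x)) ≤ x * hb x := mul_le_mul_of_nonneg_left hbl hx0.le
  have g4 : (99 / 100) * ((1 - x) * (46 / 10 + 99 / 100)) ≤ x * ((1 - x) * (46 / 10 + x)) := by
    refine mul_le_mul h0 (mul_le_mul_of_nonneg_left (by linarith) h1x.le) (by positivity) hx0.le
  have g5 : 0 ≤ hb x * √(x * hb x) := by positivity
  have g6 : 0 ≤ hb x ^ 2 := by positivity
  nlinarith [g1, g2, g3, g4, g5, g6]

theorem hb_lin {x : ℝ} (h0 : 0 ≤ x) (h1 : x ≤ 3 / 4) : 74 / 100 * x ≤ hb x := by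
  have he : ∀ t : ℝ, hb t = Real.binEntropy t := by
    intro t
    unfold hb
    rw [Real.binEntropy_eq_negMulLog_add_negMulLog_one_sub]
  have hc := Real.strictConcave_binEntropy.concaveOn.2 (show (3 / 4 : ℝ) ∈ Set.Icc 0 1 by norm_num)
    (show (0 : ℝ) ∈ Set.Icc 0 1 by norm_num) (show 0 ≤ x / (3 / 4) by positivity)
    (show 0 ≤ 1 - x / (3 / 4) by linarith) (by ring)
  have hv : Real.binEntropy (3 / 4) = 2 * log 2 - 3 / 4 * log 3 := by
    rw [← he]
    unfold hb negMulLog
    rw [show (1 - 3 / 4 : ℝ) = 1 / 2 ^ 2 by norm_num, show (3 / 4 : ℝ) = 3 / 2 ^ 2 by norm_num,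
      Real.log_div (by norm_num) (by norm_num), Real.log_div (by norm_num) (by norm_num),
      Real.log_pow, Real.log_one]
    push_cast
    ring
  rw [he]
  simp only [smul_eq_mul, Real.binEntropy_zero, mul_zero, add_zero] at hc
  rw [hv, show x / (3 / 4) * (3 / 4) = x by ring] at hc
  have hl2 := Real.log_two_gt_d9
  have hl3' := Real.log_three_lt_d9
  have : x / (3 / 4) * (74 / 100 * (3 / 4)) ≤ x / (3 / 4) * (2 * log 2 - 3 / 4 * log 3) :=
    mul_le_mul_of_nonneg_left (by linarith) (by positivity)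
  linarith

theorem low {x : ℝ} (h0 : 0 ≤ x) (h1 : x ≤ 3 / 4) :
    nu x ≤ 533 / 1000 * √(x * hb x) + 1 / 10 * hb x := by
  have hb0 : 0 ≤ hb x := hb_nonneg h0 (by linarith)
  have hl := hb_lin h0 h1
  have hN := Stub.NN_diag_le h0 (show x ≤ 1 by linarith)
  unfold nu
  rw [Real.sqrt_le_iff]
  refine ⟨by positivity, hN.trans ?_⟩
  set r := √(x * hb x) with hr
  have hr0 : 0 ≤ r := Real.sqrt_nonneg _
  have hr2 : r ^ 2 = x * hb x := Real.sq_sqrt (by positivity)
  have k1 : 86 / 100 * r ≤ hb x := by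
    refine le_of_sq_le_sq ?_ hb0
    nlinarith [mul_nonneg h0 hb0, mul_le_mul_of_nonneg_right hl hb0]
  rw [← hr2]
  have k2 : (619 / 1000 * r) ≤ 533 / 1000 * r + 1 / 10 * hb x := by linarith
  have k3 : (619 / 1000 * r) ^ 2 ≤ (533 / 1000 * r + 1 / 10 * hb x) ^ 2 :=
    pow_le_pow_left₀ (by positivity) k2 2
  nlinarith [sq_nonneg r]

end U8baux

theorem nu_le {x : ℝ} (h0 : 0 ≤ x) (h1 : x ≤ 1) :
    nu x ≤ 533 / 1000 * √(x * hb x) + 1 / 10 * hb x := by
  rcases le_total x (3 / 4) with h | h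
  · exact U8baux.low h0 h
  rcases le_total x (9 / 10) with h' | h'
  · exact U8baux.seg1 h h'
  rcases le_total x (99 / 100) with h'' | h''
  · exact U8baux.seg2 h' h''
  · exact U8baux.tail h'' h1

end Pool.Agent.H286R2.UC
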